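import Pool.Agent.Helper94.YF.St

/-! Project YF, module CB: the combinatorial case `B o o = 0`. -/

set_option autoImplicit false

namespace Pool.Agent.Helper34.YF

open Pool.Agent.Helper94.YF

section Sums

variable {I : Type} [DecidableEq I]

private theorem cb_z (T : Finset I) (x : I → ℤ) (h : ∑ k ∈ T, x k ^ 2 = 0) :
    ∀ k ∈ T, x k = 0 := by
  intro k hk
  have h1 := (Finset.sum_eq_zero_iff_of_nonneg (fun k _ => sq_nonneg (x k))).1 h k hk
  exact (pow_eq_zero_iff two_ne_zero).1 h1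

private theorem cb_one (T : Finset I) (x : I → ℤ) (n : ℤ) (hn : 0 < n) (hn4 : n < 4)
    (h : ∑ k ∈ T, x k ^ 2 = n) :
    ∃ p ∈ T, x p * x p = 1 ∧ ∑ k ∈ T.erase p, x k ^ 2 = n - 1 := by
  have hne : ∑ k ∈ T, x k ^ 2 ≠ 0 := by
    rw [h]
    exact hn.ne'
  obtain ⟨p, hp, hp0⟩ := Finset.exists_ne_zero_of_sum_ne_zero hne
  have h1 : x p ^ 2 + ∑ k ∈ T.erase p, x k ^ 2 = ∑ k ∈ T, x k ^ 2 :=
    Finset.add_sum_erase T (fun k => x k ^ 2) hp
  have h2 : 0 ≤ ∑ k ∈ T.erase p, x k ^ 2 := Finset.sum_nonneg fun k _ => sq_nonneg _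
  have h3 : x p ^ 2 < 4 := by linarith
  have h4 : x p ≠ 0 := by
    intro h0
    rw [h0] at hp0
    exact hp0 rfl
  have h5 : x p < 2 := by nlinarith
  have h6 : -2 < x p := by nlinarith
  have h7 : x p = 1 ∨ x p = -1 := by omega
  have h8 : x p * x p = 1 := by
    rcases h7 with h | h <;> rw [h] <;> norm_num
  refine ⟨p, hp, h8, ?_⟩
  have h9 : x p ^ 2 = 1 := by rw [sq, h8]
  linarith

private theorem cb_two (T : Finset I) (x : I → ℤ) (h : ∑ k ∈ T, x k ^ 2 = 2) :
    ∃ p q, p ∈ T ∧ q ∈ T ∧ p ≠ q ∧ x p * x p = 1 ∧ x q * x q = 1 ∧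
      ∀ k ∈ T, k ≠ p → k ≠ q → x k = 0 := by
  obtain ⟨p, hp, h1, h2⟩ := cb_one T x 2 (by norm_num) (by norm_num) h
  obtain ⟨q, hq, h3, h4⟩ := cb_one (T.erase p) x (2 - 1) (by norm_num) (by norm_num) h2
  refine ⟨p, q, hp, Finset.mem_of_mem_erase hq, (Finset.ne_of_mem_erase hq).symm, h1, h3, ?_⟩
  intro k hk hkp hkq
  exact cb_z _ x (by rw [h4]; norm_num) k
    (Finset.mem_erase.2 ⟨hkq, Finset.mem_erase.2 ⟨hkp, hk⟩⟩)

private theorem cb_sd2 (T : Finset I) (f : I → ℤ) (a b : I) (ha : a ∈ T) (hb : b ∈ T)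
    (hab : a ≠ b) : ∑ k ∈ T \ {a, b}, f k = ∑ k ∈ T, f k - (f a + f b) := by
  have hsub : ({a, b} : Finset I) ⊆ T := by
    intro k hk
    simp only [Finset.mem_insert, Finset.mem_singleton] at hk
    rcases hk with rfl | rfl
    · exact ha
    · exact hb
  have h1 := Finset.sum_sdiff (f := f) hsub
  rw [Finset.sum_pair hab] at h1
  linarith

private theorem cb_sd3 (T : Finset I) (f : I → ℤ) (a b c : I) (ha : a ∈ T) (hb : b ∈ T)
    (hc : c ∈ T) (hab : a ≠ b) (hac : a ≠ c) (hbc : b ≠ c) :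
    ∑ k ∈ T \ {a, b, c}, f k = ∑ k ∈ T, f k - (f a + f b + f c) := by
  have hsub : ({a, b, c} : Finset I) ⊆ T := by
    intro k hk
    simp only [Finset.mem_insert, Finset.mem_singleton] at hk
    rcases hk with rfl | rfl | rfl
    · exact ha
    · exact hb
    · exact hc
  have h1 := Finset.sum_sdiff (f := f) hsub
  have h2 : a ∉ ({b, c} : Finset I) := by
    simp only [Finset.mem_insert, Finset.mem_singleton]
    tauto
  rw [Finset.sum_insert h2, Finset.sum_pair hbc] at h1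
  linarith

private theorem cb_f2 (T : Finset I) (f : I → ℤ) (a b : I) (ha : a ∈ T) (hb : b ∈ T)
    (hab : a ≠ b) (h0 : ∀ k ∈ T, k ≠ a → k ≠ b → f k = 0) : ∑ k ∈ T, f k = f a + f b := by
  have h1 := cb_sd2 T f a b ha hb hab
  have h2 : ∑ k ∈ T \ {a, b}, f k = 0 := by
    refine Finset.sum_eq_zero fun k hk => ?_
    rw [Finset.mem_sdiff] at hk
    simp only [Finset.mem_insert, Finset.mem_singleton, not_or] at hk
    exact h0 k hk.1 hk.2.1 hk.2.2
  linarith

private theorem cb_f3 (T : Finset I) (f : I → ℤ) (a b c : I) (ha : a ∈ T) (hb : b ∈ T)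
    (hc : c ∈ T) (hab : a ≠ b) (hac : a ≠ c) (hbc : b ≠ c)
    (h0 : ∀ k ∈ T, k ≠ a → k ≠ b → k ≠ c → f k = 0) : ∑ k ∈ T, f k = f a + f b + f c := by
  have h1 := cb_sd3 T f a b c ha hb hc hab hac hbc
  have h2 : ∑ k ∈ T \ {a, b, c}, f k = 0 := by
    refine Finset.sum_eq_zero fun k hk => ?_
    rw [Finset.mem_sdiff] at hk
    simp only [Finset.mem_insert, Finset.mem_singleton, not_or] at hk
    exact h0 k hk.1 hk.2.1 hk.2.2.1 hk.2.2.2
  linarith

private theorem cb_le2 (T : Finset I) (x : I → ℤ) (a b : I) (ha : a ∈ T) (hb : b ∈ T)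
    (hab : a ≠ b) : x a ^ 2 + x b ^ 2 ≤ ∑ k ∈ T, x k ^ 2 := by
  have h1 := cb_sd2 T (fun k => x k ^ 2) a b ha hb hab
  have h2 : 0 ≤ ∑ k ∈ T \ {a, b}, x k ^ 2 := Finset.sum_nonneg fun k _ => sq_nonneg _
  linarith

private theorem cb_le3 (T : Finset I) (x : I → ℤ) (a b c : I) (ha : a ∈ T) (hb : b ∈ T)
    (hc : c ∈ T) (hab : a ≠ b) (hac : a ≠ c) (hbc : b ≠ c) :
    x a ^ 2 + x b ^ 2 + x c ^ 2 ≤ ∑ k ∈ T, x k ^ 2 := by
  have h1 := cb_sd3 T (fun k => x k ^ 2) a b c ha hb hc hab hac hbc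
  have h2 : 0 ≤ ∑ k ∈ T \ {a, b, c}, x k ^ 2 := Finset.sum_nonneg fun k _ => sq_nonneg _
  linarith

private theorem cb_eq2 (T : Finset I) (x : I → ℤ) (a b : I) (ha : a ∈ T) (hb : b ∈ T)
    (hab : a ≠ b) (h : ∑ k ∈ T, x k ^ 2 = x a ^ 2 + x b ^ 2) :
    ∀ k ∈ T, k ≠ a → k ≠ b → x k = 0 := by
  intro k hk h1 h2
  have h3 := cb_sd2 T (fun k => x k ^ 2) a b ha hb hab
  refine cb_z (T \ {a, b}) x (by linarith) k ?_
  rw [Finset.mem_sdiff]
  simp only [Finset.mem_insert, Finset.mem_singleton, not_or]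
  exact ⟨hk, h1, h2⟩

private theorem cb_eq3 (T : Finset I) (x : I → ℤ) (a b c : I) (ha : a ∈ T) (hb : b ∈ T)
    (hc : c ∈ T) (hab : a ≠ b) (hac : a ≠ c) (hbc : b ≠ c)
    (h : ∑ k ∈ T, x k ^ 2 = x a ^ 2 + x b ^ 2 + x c ^ 2) :
    ∀ k ∈ T, k ≠ a → k ≠ b → k ≠ c → x k = 0 := by
  intro k hk h1 h2 h4
  have h3 := cb_sd3 T (fun k => x k ^ 2) a b c ha hb hc hab hac hbc
  refine cb_z (T \ {a, b, c}) x (by linarith) k ?_
  rw [Finset.mem_sdiff]
  simp only [Finset.mem_insert, Finset.mem_singleton, not_or]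
  exact ⟨hk, h1, h2, h4⟩

private theorem cb_ex3 (T : Finset I) (x : I → ℤ) (a b c : I) (ha : a ∈ T) (hb : b ∈ T)
    (hc : c ∈ T) (hab : a ≠ b) (hac : a ≠ c) (hbc : b ≠ c)
    (h : ∑ k ∈ T, x k ^ 2 = x a ^ 2 + x b ^ 2 + x c ^ 2 + 1) :
    ∃ z ∈ T, z ≠ a ∧ z ≠ b ∧ z ≠ c ∧ x z * x z = 1 ∧
      ∀ k ∈ T, k ≠ a → k ≠ b → k ≠ c → k ≠ z → x k = 0 := by
  have h3 := cb_sd3 T (fun k => x k ^ 2) a b c ha hb hc hab hac hbc
  obtain ⟨z, hz, h4, h5⟩ := cb_one (T \ {a, b, c}) x 1 one_pos (by norm_num) (by linarith)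
  rw [Finset.mem_sdiff] at hz
  simp only [Finset.mem_insert, Finset.mem_singleton, not_or] at hz
  refine ⟨z, hz.1, hz.2.1, hz.2.2.1, hz.2.2.2, h4, ?_⟩
  intro k hk h6 h7 h8 h9
  refine cb_z _ x (by rw [h5]; norm_num) k ?_
  rw [Finset.mem_erase, Finset.mem_sdiff]
  simp only [Finset.mem_insert, Finset.mem_singleton, not_or]
  exact ⟨h9, hk, h6, h7, h8⟩

end Sums

private theorem cb_pm {x : ℤ} (h : x * x = 1) : x = 1 ∨ x = -1 := mul_self_eq_one_iff.1 h

private theorem cb_ne {x : ℤ} (h : x * x = 1) : x ≠ 0 := by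
  rintro rfl
  norm_num at h

private theorem cb_sm {x y : ℤ} (h : x ^ 2 + y ^ 2 ≤ 2) :
    (-1 ≤ x ∧ x ≤ 1) ∧ -1 ≤ y ∧ y ≤ 1 := by
  refine ⟨⟨?_, ?_⟩, ?_, ?_⟩ <;> nlinarith [sq_nonneg x, sq_nonneg y]

private theorem cb_ti {t : ℤ} (h : t ^ 2 + (1 - t) ^ 2 ≤ 2 - t) : t = 0 ∨ t = 1 := by
  have h1 : t ≤ 1 := by nlinarith
  have h2 : 0 ≤ t := by nlinarith
  omega

private theorem cb_vi {v : ℤ} (h : 1 + v ^ 2 + (1 - v) ^ 2 ≤ 2 + v) : v = 0 ∨ v = 1 := by
  have h1 : v ≤ 1 := by nlinarith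
  have h2 : 0 ≤ v := by nlinarith
  omega

private theorem cb_par {x y a b k : ℤ} (ha : a * a = 1) (hb : b * b = 1) (hk : k * k = 1)
    (h : x ^ 2 + y ^ 2 ≤ 2) (e : a * x + b * y = k) : x = 0 ∨ y = 0 := by
  obtain ⟨⟨h1, h2⟩, h3, h4⟩ := cb_sm h
  rcases cb_pm ha with h5 | h5 <;> rcases cb_pm hb with h6 | h6 <;>
    rcases cb_pm hk with h7 | h7 <;> rw [h5, h6, h7] at e <;> omega

private theorem cb_od {a c k l m : ℤ} (ha : a * a = 1) (hc : c * c = 1)
    (h : c * 1 + -(a * c) * (2 * k + 1) + 0 * m = 2 * l + 1) : False := by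
  rcases cb_pm ha with h1 | h1 <;> rcases cb_pm hc with h2 | h2 <;> rw [h1, h2] at h <;> omega

/-- the main part; `p`, `q` are such that `B q r = 0` -/
private theorem cb_core (hDIV : StDIV) {I : Type} [Fintype I] [DecidableEq I] (X : BD I)
    (hp : ∀ i j, ∑ k ∈ Finset.univ.filter (fun k => X.e k = 1), X.B i k * X.B k j =
      (if i = j then 2 else 0) + X.e i * X.e j * X.B i j)
    (hm : ∀ i j, ∑ k ∈ Finset.univ.filter (fun k => X.e k = -1), X.B i k * X.B k j =
      (if i = j then 2 else 0) - X.e i * X.e j * X.B i j)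
    (hoo : X.B X.o X.o = 0) (p q r s : I) (hpT : X.e p = 1) (hqT : X.e q = 1) (hpq : p ≠ q)
    (ha : X.B X.o p * X.B X.o p = 1) (hb : X.B X.o q * X.B X.o q = 1)
    (hrow : ∀ k, X.e k = 1 → k ≠ p → k ≠ q → X.B X.o k = 0)
    (hrT : X.e r = -1) (hsT : X.e s = -1) (hrs : r ≠ s)
    (hc : X.B X.o r * X.B X.o r = 1) (hg : X.B X.o s * X.B X.o s = 1)
    (hrow' : ∀ k, X.e k = -1 → k ≠ r → k ≠ s → X.B X.o k = 0)
    (hqr : X.B r q = 0) : X.Good := by
  classical
  set Tp := Finset.univ.filter (fun k => X.e k = 1) with hTp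
  set Tm := Finset.univ.filter (fun k => X.e k = -1) with hTm
  have mp : ∀ k, k ∈ Tp ↔ X.e k = 1 := fun k => by simp [hTp]
  have mm : ∀ k, k ∈ Tm ↔ X.e k = -1 := fun k => by simp [hTm]
  have hoT : X.o ∈ Tp := (mp _).2 X.e_o
  have hpT' := (mp p).2 hpT
  have hqT' := (mp q).2 hqT
  have hrT' := (mm r).2 hrT
  have hsT' := (mm s).2 hsT
  have hee : ∀ i, X.e i * X.e i = 1 := by
    intro i
    rcases X.e_pm i with h | h <;> rw [h] <;> norm_num
  have hps : ∀ i, ∑ k ∈ Tp, X.B i k ^ 2 = 2 + X.B i i := by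
    intro i
    have h := hp i i
    rw [if_pos rfl, hee, one_mul] at h
    rw [← h]
    exact Finset.sum_congr rfl fun k _ => by rw [sq, X.symm k i]
  have hms : ∀ i, ∑ k ∈ Tm, X.B i k ^ 2 = 2 - X.B i i := by
    intro i
    have h := hm i i
    rw [if_pos rfl, hee, one_mul] at h
    rw [← h]
    exact Finset.sum_congr rfl fun k _ => by rw [sq, X.symm k i]
  have hop : X.o ≠ p := by
    rintro h
    rw [← h, hoo] at ha
    norm_num at ha
  have hoq : X.o ≠ q := by
    rintro h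
    rw [← h, hoo] at hb
    norm_num at hb
  have hor : X.o ≠ r := by
    rintro h
    rw [← h, X.e_o] at hrT
    norm_num at hrT
  have hos : X.o ≠ s := by
    rintro h
    rw [← h, X.e_o] at hsT
    norm_num at hsT
  have hpr : p ≠ r := by
    rintro h
    rw [h, hrT] at hpT
    norm_num at hpT
  have hps' : p ≠ s := by
    rintro h
    rw [h, hsT] at hpT
    norm_num at hpT
  have hqr' : q ≠ r := by
    rintro h
    rw [h, hrT] at hqT
    norm_num at hqT
  have hqs : q ≠ s := by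
    rintro h
    rw [h, hsT] at hqT
    norm_num at hqT
  -- sums with the row `o`
  have rop : ∀ j, X.o ≠ j → X.B X.o p * X.B p j + X.B X.o q * X.B q j = X.e j * X.B X.o j := by
    intro j hj
    have h := hp X.o j
    rw [cb_f2 Tp _ p q hpT' hqT' hpq (fun k hk h1 h2 => by
      rw [hrow k ((mp k).1 hk) h1 h2, zero_mul]), if_neg hj, X.e_o, one_mul, zero_add] at h
    exact h
  have rom : ∀ j, X.o ≠ j → X.B X.o r * X.B r j + X.B X.o s * X.B s j = - (X.e j * X.B X.o j) := by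
    intro j hj
    have h := hm X.o j
    rw [cb_f2 Tm _ r s hrT' hsT' hrs (fun k hk h1 h2 => by
      rw [hrow' k ((mm k).1 hk) h1 h2, zero_mul]), if_neg hj, X.e_o, one_mul, zero_sub] at h
    exact h
  obtain ⟨a, hA⟩ : ∃ a, X.B X.o p = a := ⟨_, rfl⟩
  obtain ⟨b, hB⟩ : ∃ b, X.B X.o q = b := ⟨_, rfl⟩
  obtain ⟨c, hC⟩ : ∃ c, X.B X.o r = c := ⟨_, rfl⟩
  obtain ⟨g, hG⟩ : ∃ g, X.B X.o s = g := ⟨_, rfl⟩
  have hpo : X.B p X.o = a := by rw [X.symm, hA]
  have hqo : X.B q X.o = b := by rw [X.symm, hB]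
  have hro : X.B r X.o = c := by rw [X.symm, hC]
  have hso : X.B s X.o = g := by rw [X.symm, hG]
  rw [hA] at ha
  rw [hB] at hb
  rw [hC] at hc
  rw [hG] at hg
  simp only [hA, hB] at rop
  simp only [hC, hG] at rom
  -- the entries `B r r`, `B r s`, `B s s`
  obtain ⟨t, ht⟩ : ∃ t, X.B r r = t := ⟨_, rfl⟩
  have E1 := rom r hor
  rw [hrT, hC, ht, X.symm s r] at E1
  have hBrs : X.B r s = c * g * (1 - t) := by
    linear_combination g * E1 - X.B r s * hg
  have E2 := rom s hos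
  rw [hsT, hG, hBrs] at E2
  have hBss : X.B s s = t := by
    linear_combination g * E2 - X.B s s * hg - c * c * (1 - t) * hg - (1 - t) * hc + hg
  have hl := cb_le2 Tm (fun k => X.B r k) r s hrT' hsT' hrs
  simp only [hms, ht, hBrs] at hl
  have hcg : (c * g) * (c * g) = 1 := by linear_combination g * g * hc + hg
  have hl' : t ^ 2 + (1 - t) ^ 2 ≤ 2 - t := by
    have e : (c * g * (1 - t)) ^ 2 = (1 - t) ^ 2 := by linear_combination (1 - t) ^ 2 * hcg
    rw [e] at hl
    exact hl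
  have ht01 := cb_ti hl'
  -- `B r p`
  have E3 := rop r hor
  rw [hrT, hC, X.symm q r, hqr, X.symm p r] at E3
  have hBrp : X.B r p = -(a * c) := by
    linear_combination a * E3 - X.B r p * ha
  have hacc : (a * c) * (a * c) = 1 := by linear_combination c * c * ha + hc
  have hsumr := hps r
  rw [ht] at hsumr
  have hodd : ∀ i j, X.B i j * X.B i j = 1 → Odd (X.d j) := fun i j h => X.odd i j (cb_pm h)
  have hdp : Odd (X.d p) := hodd X.o p (by rw [hA]; exact ha)
  have hdq : Odd (X.d q) := hodd X.o q (by rw [hB]; exact hb)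
  have hdr : Odd (X.d r) := hodd X.o r (by rw [hC]; exact hc)
  have hdo : (X.d X.o : ℤ) = 1 := by rw [X.d_o]; rfl
  have ht' : t = 1 := by
    by_contra hne
    have ht00 : t = 0 := ht01.resolve_right hne
    have hz := cb_eq3 Tp (fun k => X.B r k) X.o p q hoT hpT' hqT' hop hoq hpq (by
      simp only [hro, hBrp, hqr]
      rw [hsumr, ht00]
      linear_combination -hc - hacc)
    have hd := X.divm r hrT
    rw [← Finset.sum_filter, ← hTp, cb_f3 Tp _ X.o p q hoT hpT' hqT' hop hoq hpq (fun k hk h1 h2 h3 => by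
      rw [hz k hk h1 h2 h3, zero_mul]), hro, hBrp, hqr, hdo] at hd
    obtain ⟨k, hk⟩ := hdp
    obtain ⟨l, hl⟩ := hdr
    rw [hk, hl] at hd
    push_cast at hd
    exact cb_od ha hc hd
  subst ht'
  rw [sub_self, mul_zero] at hBrs
  -- the index `z`
  obtain ⟨z, hzT, hzo, hzp, hzq, hu, hzr⟩ := cb_ex3 Tp (fun k => X.B r k) X.o p q hoT hpT' hqT' hop
    hoq hpq (by
      simp only [hro, hBrp, hqr]
      rw [hsumr]
      linear_combination -hc - hacc)
  obtain ⟨u, hU⟩ : ∃ u, X.B r z = u := ⟨_, rfl⟩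
  simp only [hU] at hu
  have hze : X.e z = 1 := (mp z).1 hzT
  have hrowr : ∀ k ∈ Tp, k ≠ X.o → k ≠ p → k ≠ z → X.B r k = 0 := by
    intro k hk h1 h2 h3
    by_cases hkq : k = q
    · rw [hkq, hqr]
    · exact hzr k hk h1 h2 hkq h3
  have hzo' : X.o ≠ z := fun h => hzo h.symm
  have hpz : p ≠ z := fun h => hzp h.symm
  have hqz : q ≠ z := fun h => hzq h.symm
  have hoz : X.B X.o z = 0 := hrow z hze hzp hzq
  -- sums with the row `r`
  have rrp : ∀ j, r ≠ j → c * X.B X.o j - a * c * X.B p j + u * X.B z j = -(X.e j * X.B r j) := by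
    intro j hj
    have h := hp r j
    rw [cb_f3 Tp _ X.o p z hoT hpT' hzT hop hzo' hpz (fun k hk h1 h2 h3 => by
      rw [hrowr k hk h1 h2 h3, zero_mul]), if_neg hj, hrT, hro, hBrp, hU] at h
    linear_combination h
  -- `B p s`, `B q s`, `B z s`
  have E4 := rop s hos
  rw [hsT, hG] at E4
  have E5 := rrp s hrs
  rw [hsT, hG, hBrs] at E5
  have hsums := hps s
  rw [hBss] at hsums
  have hb3 := cb_le3 Tp (fun k => X.B s k) X.o p q hoT hpT' hqT' hop hoq hpq
  simp only [hsums, hso] at hb3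
  have hb4 := cb_le2 Tp (fun k => X.B s k) X.o z hoT hzT hzo'
  simp only [hsums, hso] at hb4
  have hps0 : X.B p s = 0 := by
    by_contra hne
    -- then `B q s = 0`
    obtain ⟨x, hx⟩ : ∃ x, X.B p s = x := ⟨_, rfl⟩
    obtain ⟨y, hy⟩ : ∃ y, X.B q s = y := ⟨_, rfl⟩
    obtain ⟨w, hw⟩ : ∃ w, X.B z s = w := ⟨_, rfl⟩
    rw [X.symm s p, X.symm s q, hx, hy] at hb3
    rw [X.symm s z, hw] at hb4
    rw [hx, hy] at E4
    rw [hx, hw] at E5
    rw [hx] at hne
    have hg1 : g ^ 2 = 1 := by rw [sq, hg]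
    have hx2 : x ^ 2 + y ^ 2 ≤ 2 := by linarith only [hb3, hg1]
    have hy0 : y = 0 := (cb_par ha hb (k := -1 * g) (by linear_combination hg) hx2
      (by linear_combination E4)).resolve_left hne
    rw [hy0, mul_zero, add_zero] at E4
    have hxa : x = -(a * g) := by linear_combination a * E4 - x * ha
    have hw2 : u * w = -2 * (c * g) := by
      rw [hxa] at E5
      linear_combination E5 - c * g * ha
    have hw4 : w * w = 4 := by
      have : (u * w) * (u * w) = 4 := by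
        rw [hw2]
        linear_combination 4 * hcg
      linear_combination this - w * w * hu
    have hw5 : w ^ 2 = 4 := by rw [sq, hw4]
    linarith only [hb4, hg1, hw5]
  rw [hps0, mul_zero, zero_add] at E4
  have hBqs : X.B q s = -(b * g) := by linear_combination b * E4 - X.B q s * hb
  have hBzs : X.B z s = -(c * g * u) := by
    rw [hps0] at E5
    linear_combination u * E5 - X.B z s * hu
  have hrows : ∀ k ∈ Tp, k ≠ X.o → k ≠ q → k ≠ z → X.B s k = 0 := by
    refine cb_eq3 Tp (fun k => X.B s k) X.o q z hoT hqT' hzT hoq hzo' hqz ?_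
    simp only [hso, X.symm s q, X.symm s z, hBqs, hBzs]
    rw [hsums]
    linear_combination -hg - g * g * hb - hg - u * u * hcg - hu
  -- the entries `B p p`, `B p q`, `B q q`
  obtain ⟨v, hv⟩ : ∃ v, X.B p p = v := ⟨_, rfl⟩
  have E6 := rop p hop
  rw [hpT, hA, hv, X.symm q p] at E6
  have hBpq : X.B p q = a * b * (1 - v) := by linear_combination b * E6 - X.B p q * hb
  have E7 := rop q hoq
  rw [hqT, hB, hBpq] at E7
  have hBqq : X.B q q = v := by
    linear_combination b * E7 - X.B q q * hb - b * b * (1 - v) * ha - (1 - v) * hb + hb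
  have hab : (a * b) * (a * b) = 1 := by linear_combination b * b * ha + hb
  have hsump := hps p
  rw [hv] at hsump
  have hb5 := cb_le3 Tp (fun k => X.B p k) X.o p q hoT hpT' hqT' hop hoq hpq
  simp only [hsump, hpo, hv, hBpq] at hb5
  have hb5' : 1 + v ^ 2 + (1 - v) ^ 2 ≤ 2 + v := by
    have e : a ^ 2 + v ^ 2 + (a * b * (1 - v)) ^ 2 = 1 + v ^ 2 + (1 - v) ^ 2 := by
      linear_combination ha + (1 - v) ^ 2 * hab
    rw [e] at hb5
    exact hb5
  have hv01 := cb_vi hb5'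
  -- duality
  have hst : ∀ k, X.e k = 1 → X.B X.o k ≠ 0 → k = p ∨ k = q := by
    intro k hk h
    by_contra hc'
    push Not at hc'
    exact h (hrow k hk hc'.1 hc'.2)
  have hBst : ∀ k, X.B X.o (X.st k) = X.B X.o k := by
    intro k
    have h := X.B_st X.o k
    rwa [X.st_o] at h
  have hstz : X.st z ≠ X.o := by
    intro h
    have h2 := congrArg X.st h
    rw [X.st_st, X.st_o] at h2
    exact hzo h2
  have hstp : X.st p = p := by
    have h1 := hst (X.st p) (by rw [X.e_st, hpT]) (by rw [hBst, hA]; exact cb_ne ha)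
    rcases h1 with h1 | h1
    · exact h1
    · exfalso
      -- `st r = s`
      have h2 : X.B (X.st r) q ≠ 0 := by
        rw [← h1, X.B_st, hBrp]
        exact neg_ne_zero.2 (cb_ne hacc)
      have h3 : X.st r = r ∨ X.st r = s := by
        by_contra hc'
        push Not at hc'
        have h4 := hrow' (X.st r) (by rw [X.e_st, hrT]) hc'.1 hc'.2
        rw [hBst, hC] at h4
        exact cb_ne hc h4
      have h4 : X.st r = s := by
        rcases h3 with h3 | h3
        · rw [h3] at h2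
          exact absurd hqr h2
        · exact h3
      have h5 : c = g := by
        rw [← hC, ← hG, ← h4, hBst]
      have h6 : X.B s (X.st z) = u := by
        rw [← h4, X.B_st, hU]
      have h7 : X.st z = z := by
        by_contra hc'
        have h8 := hrows (X.st z) ((mp _).2 (by rw [X.e_st, hze])) hstz (by
          intro h9
          rw [← h1] at h9
          have h10 := congrArg X.st h9
          rw [X.st_st, X.st_st] at h10
          exact hzp h10) hc'
        rw [h6] at h8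
        exact cb_ne hu h8
      rw [h7, X.symm s z, hBzs, ← h5] at h6
      have h8 : u = 0 := by
        have h9 : 2 * u = 0 := by linear_combination -h6 - u * hc
        omega
      exact cb_ne hu h8
  have hstq : X.st q = q := by
    have h1 := hst (X.st q) (by rw [X.e_st, hqT]) (by rw [hBst, hB]; exact cb_ne hb)
    rcases h1 with h1 | h1
    · exfalso
      have h2 := congrArg X.st h1
      rw [X.st_st, hstp] at h2
      exact hpq h2.symm
    · exact h1
  have hgp : X.d p = 1 → X.Good := fun h =>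
    ⟨p, fun h' => hop h'.symm, hpT, h, hstp, Or.inl (by rw [hA]; exact cb_ne ha)⟩
  have hgq : X.d q = 1 → X.Good := fun h =>
    ⟨q, fun h' => hoq h'.symm, hqT, h, hstq, Or.inl (by rw [hB]; exact cb_ne hb)⟩
  have hdp0 : (0:ℤ) < X.d p := by exact_mod_cast X.d_pos p
  have hdq0 : (0:ℤ) < X.d q := by exact_mod_cast X.d_pos q
  have hdz0 : (0:ℤ) < X.d z := by exact_mod_cast X.d_pos z
  have hdp' : Odd (X.d p : ℤ) := by exact_mod_cast hdp
  have hdq' : Odd (X.d q : ℤ) := by exact_mod_cast hdq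
  have dvp := X.divp p hpT
  have dvq := X.divp q hqT
  have dvz := X.divp z hze
  rw [← Finset.sum_filter, ← hTp] at dvp dvq dvz
  have hqsum := hps q
  rw [hBqq] at hqsum
  rcases hv01 with hv' | hv'
  · -- the case `v = 0`
    subst hv'
    have rp := cb_eq3 Tp (fun k => X.B p k) X.o p q hoT hpT' hqT' hop hoq hpq (by
      simp only [hpo, hv, hBpq]
      rw [hsump]
      linear_combination -ha - hab)
    have rq := cb_eq3 Tp (fun k => X.B q k) X.o p q hoT hpT' hqT' hop hoq hpq (by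
      simp only [hqo, hBqq, X.symm q p, hBpq]
      rw [hqsum]
      linear_combination -hb - hab)
    rw [cb_f3 Tp _ X.o p q hoT hpT' hqT' hop hoq hpq (fun k hk h1 h2 h3 => by
      rw [rp k hk h1 h2 h3, zero_mul]), hpo, hv, hBpq, hdo] at dvp
    rw [cb_f3 Tp _ X.o p q hoT hpT' hqT' hop hoq hpq (fun k hk h1 h2 h3 => by
      rw [rq k hk h1 h2 h3, zero_mul]), hqo, hBqq, X.symm q p, hBpq, hdo] at dvq
    have d1 : (X.d p : ℤ) ∣ 1 + b * X.d q := by
      have h := dvp.mul_left a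
      have e : a * (a * 1 + 0 * (X.d p : ℤ) + a * b * (1 - 0) * (X.d q : ℤ)) =
          1 + b * X.d q := by
        linear_combination (1 + b * (X.d q : ℤ)) * ha
      rwa [e] at h
    have d2 : (X.d q : ℤ) ∣ 1 + a * X.d p := by
      have h := dvq.mul_left b
      have e : b * (b * 1 + a * b * (1 - 0) * (X.d p : ℤ) + 0 * (X.d q : ℤ)) =
          1 + a * X.d p := by
        linear_combination (1 + a * (X.d p : ℤ)) * hb
      rwa [e] at h
    rcases hDIV.1 _ _ b a hdp0 hdq0 hdp' hdq' (cb_pm hb) (cb_pm ha) d1 d2 with h | h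
    · exact hgp (by exact_mod_cast h)
    · exact hgq (by exact_mod_cast h)
  · -- the case `v = 1`
    subst hv'
    rw [sub_self, mul_zero] at hBpq
    -- `B p z`
    have E8 := rrp p hpr.symm
    rw [hA, hv, hpT, hBrp] at E8
    have hBzp : X.B z p = a * c * u := by
      linear_combination u * E8 - X.B z p * hu
    -- `B q z`
    have E9 := hp s q
    rw [cb_f3 Tp _ X.o q z hoT hqT' hzT hoq hzo' hqz (fun k hk h1 h2 h3 => by
      rw [hrows k hk h1 h2 h3, zero_mul]), if_neg hqs.symm, hsT, hqT, hso, hB, X.symm s q, hBqs,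
      hBqq, X.symm s z, hBzs] at E9
    have hBzq : X.B z q = -(b * c * u) := by
      -- `g b - b g - (c g u) B z q = b g`
      linear_combination (-(c * g * u)) * E9 - X.B z q * u * u * hcg - X.B z q * hu - b * c * u * hg
    have hac2 : (a * c * u) * (a * c * u) = 1 := by linear_combination u * u * hacc + hu
    have hbc2 : (b * c * u) * (b * c * u) = 1 := by
      linear_combination c * c * u * u * hb + u * u * hc + hu
    have hdz : Odd (X.d z) := hodd p z (by rw [X.symm p z, hBzp]; exact hac2)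
    have hdz' : Odd (X.d z : ℤ) := by exact_mod_cast hdz
    have rp := cb_eq3 Tp (fun k => X.B p k) X.o p z hoT hpT' hzT hop hzo' hpz (by
      simp only [hpo, hv, X.symm p z, hBzp]
      rw [hsump]
      linear_combination -ha - hac2)
    have rq := cb_eq3 Tp (fun k => X.B q k) X.o q z hoT hqT' hzT hoq hzo' hqz (by
      simp only [hqo, hBqq, X.symm q z, hBzq]
      rw [hqsum]
      linear_combination -hb - hbc2)
    -- `B z z = 0`
    have E10 := hp p z
    rw [cb_f3 Tp _ X.o p z hoT hpT' hzT hop hzo' hpz (fun k hk h1 h2 h3 => by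
      rw [rp k hk h1 h2 h3, zero_mul]), if_neg hpz, hpT, hze, hpo, hoz, hv, X.symm p z, hBzp] at E10
    have hBzz : X.B z z = 0 := by
      linear_combination (a * c * u) * E10 - X.B z z * hac2
    have hsumz := hps z
    rw [hBzz] at hsumz
    have rz := cb_eq2 Tp (fun k => X.B z k) p q hpT' hqT' hpq (by
      simp only [hBzp, hBzq]
      rw [hsumz]
      linear_combination -hac2 - hbc2)
    rw [cb_f3 Tp _ X.o p z hoT hpT' hzT hop hzo' hpz (fun k hk h1 h2 h3 => by
      rw [rp k hk h1 h2 h3, zero_mul]), hpo, hv, X.symm p z, hBzp, hdo] at dvp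
    rw [cb_f3 Tp _ X.o q z hoT hqT' hzT hoq hzo' hqz (fun k hk h1 h2 h3 => by
      rw [rq k hk h1 h2 h3, zero_mul]), hqo, hBqq, X.symm q z, hBzq, hdo] at dvq
    rw [cb_f2 Tp _ p q hpT' hqT' hpq (fun k hk h1 h2 => by
      rw [rz k hk h1 h2, zero_mul]), hBzp, hBzq] at dvz
    have d1 : (X.d p : ℤ) ∣ 1 + c * u * X.d z := by
      have h := (dvp.sub (dvd_refl (X.d p : ℤ))).mul_left a
      have e : a * (a * 1 + 1 * (X.d p : ℤ) + a * c * u * (X.d z : ℤ) - (X.d p : ℤ)) =
          1 + c * u * X.d z := by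
        linear_combination (1 + c * u * (X.d z : ℤ)) * ha
      rwa [e] at h
    have d2 : (X.d q : ℤ) ∣ 1 - c * u * X.d z := by
      have h := (dvq.sub (dvd_refl (X.d q : ℤ))).mul_left b
      have e : b * (b * 1 + 1 * (X.d q : ℤ) + -(b * c * u) * (X.d z : ℤ) - (X.d q : ℤ)) =
          1 - c * u * X.d z := by
        linear_combination (1 - c * u * (X.d z : ℤ)) * hb
      rwa [e] at h
    have d3 : (X.d z : ℤ) ∣ X.d p - a * b * X.d q := by
      have h := dvz.mul_left (a * c * u)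
      have e : a * c * u * (a * c * u * (X.d p : ℤ) + -(b * c * u) * (X.d q : ℤ)) =
          X.d p - a * b * X.d q := by
        linear_combination (X.d p : ℤ) * hac2 - a * b * u * u * (X.d q : ℤ) * hc -
          a * b * (X.d q : ℤ) * hu
      rwa [e] at h
    have hcu : (c * u) * (c * u) = 1 := by linear_combination u * u * hc + hu
    have hw : c * u * (X.d z : ℤ) = X.d z ∨ c * u * (X.d z : ℤ) = -X.d z := by
      rcases cb_pm hcu with h | h
      · left
        rw [h, one_mul]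
      · right
        rw [h]
        ring
    rcases hDIV.2 _ _ _ (c * u * X.d z) (a * b) hdp0 hdq0 hdz0 hdp' hdq' hdz' hw (cb_pm hab) d1 d2
      d3 with h | h | h
    · exact hgp (by exact_mod_cast h)
    · exact hgq (by exact_mod_cast h)
    · have hstz' : X.st z = z := by
        by_contra hne
        have h8 := rp (X.st z) ((mp _).2 (by rw [X.e_st, hze])) hstz (by
          intro h9
          have h10 := congrArg X.st h9
          rw [X.st_st, hstp] at h10
          exact hzp h10) hne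
        have h9 := X.B_st p z
        rw [hstp, h8, X.symm p z, hBzp] at h9
        exact cb_ne hac2 h9.symm
      exact ⟨z, hzo, hze, by exact_mod_cast h, hstz', Or.inr ⟨p, by rw [hA]; exact cb_ne ha, by
        rw [X.symm p z, hBzp]
        exact cb_ne hac2⟩⟩

/-- **CB.** -/
theorem hCB : StCB := by
  classical
  intro hHS hDIV I _ _ X hoo
  obtain ⟨h1, h2, -⟩ := hHS I X
  have hp : ∀ i j, ∑ k ∈ Finset.univ.filter (fun k => X.e k = 1), X.B i k * X.B k j =
      (if i = j then 2 else 0) + X.e i * X.e j * X.B i j := by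
    intro i j
    rw [Finset.sum_filter]
    exact h1 i j
  have hm : ∀ i j, ∑ k ∈ Finset.univ.filter (fun k => X.e k = -1), X.B i k * X.B k j =
      (if i = j then 2 else 0) - X.e i * X.e j * X.B i j := by
    intro i j
    rw [Finset.sum_filter]
    exact h2 i j
  have hsp : ∑ k ∈ Finset.univ.filter (fun k => X.e k = 1), X.B X.o k ^ 2 = 2 := by
    have h := hp X.o X.o
    rw [if_pos rfl, hoo, mul_zero, add_zero] at h
    rw [← h]
    exact Finset.sum_congr rfl fun k _ => by rw [sq, X.symm k X.o]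
  have hsm : ∑ k ∈ Finset.univ.filter (fun k => X.e k = -1), X.B X.o k ^ 2 = 2 := by
    have h := hm X.o X.o
    rw [if_pos rfl, hoo, mul_zero, sub_zero] at h
    rw [← h]
    exact Finset.sum_congr rfl fun k _ => by rw [sq, X.symm k X.o]
  obtain ⟨p, q, hpT, hqT, hpq, ha, hb, hrow⟩ := cb_two _ (fun k => X.B X.o k) hsp
  obtain ⟨r, s, hrT, hsT, hrs, hc, hg, hrow'⟩ := cb_two _ (fun k => X.B X.o k) hsm
  simp only [Finset.mem_filter, Finset.mem_univ, true_and] at hpT hqT hrT hsT hrow hrow'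
  -- one of `B r p`, `B r q` is zero
  have hor : X.o ≠ r := by
    rintro h
    rw [← h, X.e_o] at hrT
    norm_num at hrT
  have hop : X.o ≠ p := by
    rintro h
    rw [← h] at ha
    simp only [hoo] at ha
    norm_num at ha
  have hoq : X.o ≠ q := by
    rintro h
    rw [← h] at hb
    simp only [hoo] at hb
    norm_num at hb
  set Tp := Finset.univ.filter (fun k => X.e k = 1) with hTp
  set Tm := Finset.univ.filter (fun k => X.e k = -1) with hTm
  have mp : ∀ k, k ∈ Tp ↔ X.e k = 1 := fun k => by simp [hTp]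
  have mm : ∀ k, k ∈ Tm ↔ X.e k = -1 := fun k => by simp [hTm]
  have E1 := hm X.o r
  rw [cb_f2 Tm _ r s ((mm r).2 hrT) ((mm s).2 hsT) hrs (fun k hk h1 h2 => by
      rw [hrow' k ((mm k).1 hk) h1 h2, zero_mul]), if_neg hor, X.e_o, hrT] at E1
  have E2 := hp X.o r
  rw [cb_f2 Tp _ p q ((mp p).2 hpT) ((mp q).2 hqT) hpq (fun k hk h1 h2 => by
      rw [hrow k ((mp k).1 hk) h1 h2, zero_mul]), if_neg hor, X.e_o, hrT] at E2
  have hee : X.e r * X.e r = 1 := by rw [hrT]; norm_num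
  have hrr : ∑ k ∈ Tm, X.B r k ^ 2 = 2 - X.B r r := by
    have h := hm r r
    rw [if_pos rfl, hee, one_mul] at h
    rw [← h]
    exact Finset.sum_congr rfl fun k _ => by rw [sq, X.symm k r]
  have hrr' : ∑ k ∈ Tp, X.B r k ^ 2 = 2 + X.B r r := by
    have h := hp r r
    rw [if_pos rfl, hee, one_mul] at h
    rw [← h]
    exact Finset.sum_congr rfl fun k _ => by rw [sq, X.symm k r]
  have hl := cb_le2 Tm (fun k => X.B r k) r s ((mm r).2 hrT) ((mm s).2 hsT) hrs
  simp only [hrr] at hl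
  have hl3 := cb_le3 Tp (fun k => X.B r k) X.o p q ((mp _).2 X.e_o) ((mp p).2 hpT) ((mp q).2 hqT)
    hop hoq hpq
  simp only [hrr'] at hl3
  obtain ⟨t, ht⟩ : ∃ t, X.B r r = t := ⟨_, rfl⟩
  obtain ⟨w, hw⟩ : ∃ w, X.B r s = w := ⟨_, rfl⟩
  obtain ⟨x, hx⟩ : ∃ x, X.B r p = x := ⟨_, rfl⟩
  obtain ⟨y, hy⟩ : ∃ y, X.B r q = y := ⟨_, rfl⟩
  obtain ⟨a, hA⟩ : ∃ a, X.B X.o p = a := ⟨_, rfl⟩
  obtain ⟨b, hB⟩ : ∃ b, X.B X.o q = b := ⟨_, rfl⟩
  obtain ⟨c, hC⟩ : ∃ c, X.B X.o r = c := ⟨_, rfl⟩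
  obtain ⟨g, hG⟩ : ∃ g, X.B X.o s = g := ⟨_, rfl⟩
  rw [ht, hw] at hl
  rw [ht, X.symm r X.o, hC, hx, hy] at hl3
  rw [X.symm s r, ht, hw, hC, hG] at E1
  rw [X.symm p r, X.symm q r, hx, hy, hA, hB, hC] at E2
  have hc2 := hc
  rw [hC] at hc2
  have hg2 := hg
  rw [hG] at hg2
  have ha2 := ha
  rw [hA] at ha2
  have hb2 := hb
  rw [hB] at hb2
  have hw' : w = c * g * (1 - t) := by linear_combination g * E1 - w * hg2
  have ht1 : t ≤ 1 := by
    have e : w ^ 2 = (1 - t) ^ 2 := by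
      rw [hw']
      linear_combination (1 - t) ^ 2 * g * g * hc2 + (1 - t) ^ 2 * hg2
    rw [e] at hl
    rcases cb_ti hl with h | h
    · rw [h]
      exact zero_le_one
    · exact h.le
  have hc1 : c ^ 2 = 1 := by rw [sq, hc2]
  have hxy : x = 0 ∨ y = 0 := cb_par ha2 hb2 (k := 1 * -1 * c) (by linear_combination hc2)
    (by linarith only [hl3, ht1, hc1]) (by linear_combination E2)
  rcases hxy with h | h
  · exact cb_core hDIV X hp hm hoo q p r s hqT hpT hpq.symm hb ha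
      (fun k hk h1 h2 => hrow k hk h2 h1) hrT hsT hrs hc hg hrow' (by rw [hx, h])
  · exact cb_core hDIV X hp hm hoo p q r s hpT hqT hpq ha hb hrow hrT hsT hrs hc hg hrow'
      (by rw [hy, h])

end Pool.Agent.Helper34.YF
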